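import Pool.Agent.H19.FK.All3
import Pool.Agent.H19.FK.Curve

/-!
# The flow roots of the complete graphs and the circle `|q - 1| = 1`

Let `F_n` be the flow polynomial of `K_n` and `Z_n` the multiset of its complex roots. We prove that the roots in `Z_n` are
equidistributed on the circle `|q - 1| = 1` as `n → ∞`; that every point of this circle is a limit of flow roots
(it is in `L_inf`); that no point outside the disc `|q - 1| ≤ 1` is an accumulation point (`L_sup` is in the disc); and that at most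
`O(n log n)` of the about `n² / 2` flow roots are outside the annulus `1 - δ < |q - 1| < 1 + δ`. The only flow root of `K_n`
(`n ≥ 3`) with `|q - 1| ≤ 1/10` is the simple root `1`. So a real algebraic curve which agrees with `L_inf` up to finitely many
points contains the circle, and up to finitely many points it is in the annulus `1/10 ≤ |q - 1| ≤ 1`. What
remains of the question is whether there are accumulation points with `1/10 ≤ |q - 1| < 1`.

Proof (helper19). Fourier duality gives `q^n F_n(q) = ± ∑_k (q)_k A_{n,k}(1-q)`, where `A_{n,k}(y)` is the sum over the partitions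
of an `n`-set into `k` blocks of `y` to the number of pairs inside the blocks. So `F_n` is of degree `n(n-1)/2 + 1 - n`, is at most
`exp(C n log n)` on the disc, and is `q-1` times a polynomial whose value at `1` is a nonzero integer. The rest follows
Erdős and Turán: Jensen's formula on small circles around the zeros of suitable auxiliary polynomials. Outside of the disc
the term `k = 1` dominates. Near `1` a recurrence shows that the values grow like `n!`. Modules of helpers 772, 448, 32, 385, 331, 612, 501, 887, 965, 100, 948, 286, 137, 956, 116, 367, 670, 376, 773,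
797, 895 after a blueprint of helper19.
-/

set_option autoImplicit false

open Polynomial Pool.Agent.H19.FK

namespace Pool.Agent.Results.MP_39ed1d_co.Equidistribution

/-- The flow polynomial of `K_n`: the integer polynomial whose value at every integer `q ≥ 1` is the number of nowhere-zero
`ℤ/q`-flows on `K_n` (see `flowPoly_spec`). -/
noncomputable def flowPoly (n : ℕ) : ℤ[X] := (u_exist n).choose

lemma flowPoly_spec (n : ℕ) : IsFlowPoly n (flowPoly n) := (u_exist n).choose_spec

/-- The complex roots of the flow polynomial of `K_n`, with multiplicity. -/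
noncomputable def flowRoots (n : ℕ) : Multiset ℂ := ((flowPoly n).map (Int.castRingHom ℂ)).roots

/-- the points `z` with `dist(z, Z_n) → 0` -/
def Linf : Set ℂ := {z | ∀ ε : ℝ, 0 < ε → ∃ N : ℕ, ∀ n : ℕ, N ≤ n → ∃ w ∈ flowRoots n, ‖w - z‖ < ε}

/-- the points `z` with `liminf dist(z, Z_n) = 0` -/
def Lsup : Set ℂ := {z | ∀ ε : ℝ, 0 < ε → ∀ N : ℕ, ∃ n : ℕ, N ≤ n ∧ ∃ w ∈ flowRoots n, ‖w - z‖ < ε}

/-- the zero set of a real polynomial in `Re z` and `Im z` -/
def curve (p : MvPolynomial (Fin 2) ℝ) : Set ℂ := {z | MvPolynomial.eval ![z.re, z.im] p = 0}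

lemma curve_closed (p : MvPolynomial (Fin 2) ℝ) : IsClosed (curve p) := by
  have h1 : Continuous fun z : ℂ => (![z.re, z.im] : Fin 2 → ℝ) := by
    refine continuous_pi fun i => ?_
    fin_cases i
    · exact Complex.continuous_re
    · exact Complex.continuous_im
  have h2 : Continuous fun z : ℂ => MvPolynomial.eval ![z.re, z.im] p :=
    (MvPolynomial.continuous_eval p).comp h1
  exact isClosed_eq h2 continuous_const

lemma mem_flowRoots {n : ℕ} {w : ℂ} (hn : 3 ≤ n) : w ∈ flowRoots n ↔ aeval w (flowPoly n) = 0 := by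
  have h0 : flowPoly n ≠ 0 := by
    intro h0
    obtain ⟨_, H, h1, h2⟩ := u_ffact n (flowPoly n) hn (flowPoly_spec n)
    rw [h0] at h1
    rcases mul_eq_zero.1 h1.symm with h3 | h3
    · have := congrArg (Polynomial.eval 0) h3
      simp at this
    · rw [h3] at h2
      simp at h2
  have h1 : (flowPoly n).map (Int.castRingHom ℂ) ≠ 0 :=
    (Polynomial.map_ne_zero_iff (Int.cast_injective (α := ℂ))).2 h0
  unfold flowRoots
  rw [mem_roots h1, IsRoot.def, eval_map]
  rfl

theorem result :
    -- the flow polynomials exist, are unique and have degree `n(n-1)/2 + 1 - n`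
    (∀ n : ℕ, ∃! F : ℤ[X], IsFlowPoly n F) ∧
    (∀ n : ℕ, 3 ≤ n → (flowPoly n).natDegree + n = n.choose 2 + 1 ∧ Multiset.card (flowRoots n) = (flowPoly n).natDegree) ∧
    -- the circle consists of limits of flow roots, and there are no accumulation points outside of the disc
    Metric.sphere (1 : ℂ) 1 ⊆ Linf ∧ Linf ⊆ Lsup ∧ Lsup ⊆ Metric.closedBall 1 1 ∧
    -- equidistribution on the circle
    (∀ f : ℂ → ℝ, Continuous f → (∃ B : ℝ, ∀ z, |f z| ≤ B) →
      Filter.Tendsto (fun n : ℕ => ((flowRoots n).map f).sum / Multiset.card (flowRoots n)) Filter.atTop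
        (nhds (Real.circleAverage f 1 1))) ∧
    -- at most `C n log n / δ` flow roots are not in the annulus of width `2 δ`
    (∃ C : ℝ, 0 < C ∧ ∀ n : ℕ, 3 ≤ n → ∀ δ : ℝ, 0 < δ → δ ≤ 1 →
      ((flowRoots n).countP (fun z => δ ≤ |‖z - 1‖ - 1|) : ℝ) ≤ C * n * Real.log n / δ) ∧
    -- near `1` the only flow root is the simple root `1`, which is an isolated accumulation point
    (∀ n : ℕ, 3 ≤ n → (flowRoots n).count 1 = 1 ∧ ∀ w ∈ flowRoots n, w ≠ 1 → 1 / 10 < ‖w - 1‖) ∧
    Linf ∩ Metric.ball 1 (1 / 10) = {1} ∧ Lsup ∩ Metric.ball 1 (1 / 10) = {1} ∧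
    -- a real algebraic curve which agrees with `L_inf` up to finitely many points contains the circle and is in the annulus
    (∀ p : MvPolynomial (Fin 2) ℝ, (curve p \ Linf).Finite → (Linf \ curve p).Finite →
      Metric.sphere (1 : ℂ) 1 ⊆ curve p ∧ (curve p \ (Metric.closedBall 1 1 \ Metric.ball 1 (1 / 10))).Finite) := by
  have hcard : ∀ n : ℕ, Multiset.card (flowRoots n) = (flowPoly n).natDegree := by
    intro n
    unfold flowRoots
    rw [IsAlgClosed.card_roots_eq_natDegree, natDegree_map_eq_of_injective (Int.cast_injective (α := ℂ))]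
  have hsub : Metric.sphere (1 : ℂ) 1 ⊆ Linf := by
    intro ζ hζ ε hε
    obtain ⟨N, hN⟩ := u_end ζ (mem_sphere_iff_norm.1 hζ) ε hε
    refine ⟨max N 3, fun n hn => ?_⟩
    obtain ⟨z, hz, hzε⟩ := hN n (le_trans (le_max_left _ _) hn) (flowPoly n) (flowPoly_spec n)
    exact ⟨z, (mem_flowRoots (le_trans (le_max_right _ _) hn)).2 hz, hzε⟩
  have hLL : Linf ⊆ Lsup := by
    intro z hz ε hε N
    obtain ⟨N', hN'⟩ := hz ε hε
    exact ⟨max N N', le_max_left _ _, hN' _ (le_max_right _ _)⟩
  have hout : Lsup ⊆ Metric.closedBall 1 1 := by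
    intro z hz
    rw [mem_closedBall_iff_norm]
    by_contra hcon
    push Not at hcon
    set δ : ℝ := (‖z - 1‖ - 1) / 2 with hδ
    have hδ0 : 0 < δ := by rw [hδ]; linarith
    obtain ⟨N, hN⟩ := u_out δ hδ0
    obtain ⟨n, hn, w, hw, hwz⟩ := hz δ hδ0 (max N 3)
    have hw' := (mem_flowRoots (le_trans (le_max_right _ _) hn)).1 hw
    refine hN n (le_trans (le_max_left _ _) hn) (flowPoly n) (flowPoly_spec n) w ?_ hw'
    have h1 : ‖z - 1‖ ≤ ‖w - 1‖ + ‖w - z‖ := by
      have : z - 1 = (w - 1) - (w - z) := by ring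
      rw [this]
      exact norm_sub_le _ _
    rw [hδ] at hwz ⊢
    linarith
  have hinn : ∀ n : ℕ, 3 ≤ n → ∀ w ∈ flowRoots n, w ≠ 1 → 1 / 10 < ‖w - 1‖ := by
    intro n hn w hw hw1
    by_contra hcon
    push Not at hcon
    exact u_inn n (flowPoly n) hn (flowPoly_spec n) w hw1 hcon ((mem_flowRoots hn).1 hw)
  have hone : ∀ n : ℕ, 3 ≤ n → (1 : ℂ) ∈ flowRoots n := by
    intro n hn
    rw [mem_flowRoots hn]
    obtain ⟨_, H, h1, _⟩ := u_ffact n (flowPoly n) hn (flowPoly_spec n)
    rw [h1, map_mul, map_sub, aeval_X, map_one, sub_self, zero_mul]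
  have hLs : Lsup ∩ Metric.ball 1 (1 / 10) ⊆ {1} := by
    rintro z ⟨hz, hzb⟩
    rw [mem_ball_iff_norm] at hzb
    by_contra hz1
    have hz1' : z ≠ 1 := hz1
    have h0 : 0 < ‖z - 1‖ := norm_pos_iff.2 (sub_ne_zero.2 hz1')
    obtain ⟨n, hn, w, hw, hwz⟩ := hz (min ‖z - 1‖ (1 / 10 - ‖z - 1‖)) (lt_min h0 (by linarith)) 3
    have h1 := lt_of_lt_of_le hwz (min_le_left _ _)
    have h2 := lt_of_lt_of_le hwz (min_le_right _ _)
    have hw1 : w ≠ 1 := by
      rintro rfl
      rw [norm_sub_rev] at h1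
      exact lt_irrefl _ h1
    have h3 := hinn n hn w hw hw1
    have h4 : ‖w - 1‖ ≤ ‖w - z‖ + ‖z - 1‖ := by
      have : w - 1 = (w - z) + (z - 1) := by ring
      rw [this]
      exact norm_add_le _ _
    linarith
  have h1L : (1 : ℂ) ∈ Linf := by
    intro ε hε
    exact ⟨3, fun n hn => ⟨1, hone n hn, by simpa using hε⟩⟩
  have h1b : (1 : ℂ) ∈ Metric.ball (1 : ℂ) (1 / 10) := by
    rw [mem_ball_iff_norm]
    norm_num
  have hE1 : Linf ∩ Metric.ball 1 (1 / 10) = {1} := by
    apply Set.Subset.antisymm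
    · exact fun z hz => hLs ⟨hLL hz.1, hz.2⟩
    · rintro _ rfl
      exact ⟨h1L, h1b⟩
  have hE2 : Lsup ∩ Metric.ball 1 (1 / 10) = {1} := by
    apply Set.Subset.antisymm hLs
    rintro _ rfl
    exact ⟨hLL h1L, h1b⟩
  refine ⟨?_, ?_, hsub, hLL, hout, ?_, ?_, ?_, hE1, hE2, ?_⟩
  · intro n
    exact ⟨flowPoly n, flowPoly_spec n, fun G hG => Curve.uniq n G (flowPoly n) hG (flowPoly_spec n)⟩
  · intro n hn
    exact ⟨(u_ffact n (flowPoly n) hn (flowPoly_spec n)).1, hcard n⟩
  · intro f hf hB
    rw [Metric.tendsto_atTop]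
    intro ε hε
    obtain ⟨N, hN⟩ := u_eqd f hf hB ε hε
    refine ⟨N, fun n hn => ?_⟩
    rw [Real.dist_eq, hcard n]
    exact hN n hn (flowPoly n) (flowPoly_spec n)
  · obtain ⟨C, hC, h⟩ := u_ann
    exact ⟨C, hC, fun n hn δ h1 h2 => h n (flowPoly n) hn (flowPoly_spec n) δ h1 h2⟩
  · intro n hn
    refine ⟨?_, hinn n hn⟩
    obtain ⟨_, H, h1, h2⟩ := u_ffact n (flowPoly n) hn (flowPoly_spec n)
    have hH0 : H ≠ 0 := by
      rintro rfl
      simp at h2
    have hP0 : H.map (Int.castRingHom ℂ) ≠ 0 :=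
      (Polynomial.map_ne_zero_iff (Int.cast_injective (α := ℂ))).2 hH0
    have hroots : flowRoots n = {1} + (H.map (Int.castRingHom ℂ)).roots := by
      unfold flowRoots
      have hFm : (flowPoly n).map (Int.castRingHom ℂ) = (X - C 1) * H.map (Int.castRingHom ℂ) := by
        rw [h1, Polynomial.map_mul]
        simp
      rw [hFm, roots_mul (mul_ne_zero (X_sub_C_ne_zero 1) hP0), roots_X_sub_C]
    rw [hroots, Multiset.count_add, Multiset.count_singleton_self]
    have h3 : Multiset.count 1 (H.map (Int.castRingHom ℂ)).roots = 0 := by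
      rw [Multiset.count_eq_zero, mem_roots hP0, IsRoot.def]
      intro h4
      apply h2
      have h5 := Polynomial.eval_intCast_map (Int.castRingHom ℂ) H 1
      have h6 : ((H.eval 1 : ℤ) : ℂ) = 0 := by
        simpa [h4] using h5.symm
      exact_mod_cast h6
    rw [h3]
  · intro p h1 h2
    refine ⟨Curve.circle_subset _ (curve_closed p) (h2.subset fun z hz => ⟨hsub hz.1, hz.2⟩), ?_⟩
    refine (h1.union (Set.finite_singleton (1 : ℂ))).subset ?_
    rintro z ⟨hz1, hz2⟩
    by_cases hzL : z ∈ Linf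
    · right
      by_cases hzb : z ∈ Metric.ball (1 : ℂ) (1 / 10)
      · have h3 : z ∈ Linf ∩ Metric.ball 1 (1 / 10) := ⟨hzL, hzb⟩
        rw [hE1] at h3
        exact h3
      · exact absurd ⟨hout (hLL hzL), hzb⟩ hz2
    · exact Or.inl ⟨hz1, hzL⟩

end Pool.Agent.Results.MP_39ed1d_co.Equidistribution
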